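import Pool.Agent.helper82.UM.Spec

/-!
# Project UM (MP_2e0e07_nt), row NRM: a value divisible by a place above a large prime is zero
-/

set_option autoImplicit false

namespace Pool.Agent.UM

open Matrix Polynomial Pool.Agent.GO Pool.Agent.AR Pool.Agent.RG Pool.Agent.HZ Pool.Agent.DS
  Pool.Agent.AX MeasureTheory NumberField

/-- the bound of the height -/
noncomputable def NRM_H {r : ℕ} (Φ : (MvPolynomial (Fin r × ℕ) ℤ)[X]) : ℕ :=
  ∑ k ∈ Finset.range (Φ.natDegree + 1), ∑ m ∈ (Φ.coeff k).support, ((Φ.coeff k).coeff m).natAbs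

theorem NRM_weight {E : Type} [Field E] {r : ℕ} (n : Fin r → ℕ) (Φ : (MvPolynomial (Fin r × ℕ) ℤ)[X]) {D : ℕ}
    (hD : HasWeight n Φ D) : HasWeight n (PhiE E Φ) D := by
  intro k m hm
  unfold PhiE at hm
  rw [Polynomial.coeff_map] at hm
  exact hD k m (MvPolynomial.support_map_subset _ _ hm)

theorem NRM_height {E : Type} [Field E] {r : ℕ} (Φ : (MvPolynomial (Fin r × ℕ) ℤ)[X]) :
    HasHeight (PhiE E Φ) (NRM_H Φ) := by
  intro φ
  have h1 : ∀ (k : ℕ) (m : Fin r × ℕ →₀ ℕ), ‖φ ((((PhiE E Φ).coeff k).coeff m : 𝓞 E) : E)‖ =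
      (((Φ.coeff k).coeff m).natAbs : ℝ) := by
    intro k m
    unfold PhiE
    rw [Polynomial.coeff_map, MvPolynomial.coeff_map]
    have h2 : φ (((Int.castRingHom (𝓞 E)) ((Φ.coeff k).coeff m) : 𝓞 E) : E) = (((Φ.coeff k).coeff m : ℤ) : ℂ) := by
      simp
    rw [h2, Complex.norm_intCast, Nat.cast_natAbs, Int.cast_abs]
  have h2 : ∀ k, ((PhiE E Φ).coeff k).support ⊆ (Φ.coeff k).support := by
    intro k
    unfold PhiE
    rw [Polynomial.coeff_map]
    exact MvPolynomial.support_map_subset _ _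
  have h3 : Finset.range ((PhiE E Φ).natDegree + 1) ⊆ Finset.range (Φ.natDegree + 1) := by
    apply Finset.range_subset_range.2
    have := Polynomial.natDegree_map_le (f := MvPolynomial.map (Int.castRingHom (𝓞 E))) (p := Φ)
    unfold PhiE
    omega
  unfold NRM_H
  push_cast
  calc ∑ k ∈ Finset.range ((PhiE E Φ).natDegree + 1), ∑ m ∈ ((PhiE E Φ).coeff k).support,
        ‖φ ((((PhiE E Φ).coeff k).coeff m : 𝓞 E) : E)‖
      ≤ ∑ k ∈ Finset.range ((PhiE E Φ).natDegree + 1), ∑ m ∈ (Φ.coeff k).support,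
        (((Φ.coeff k).coeff m).natAbs : ℝ) := by
        refine Finset.sum_le_sum fun k _ => ?_
        simp only [h1]
        exact Finset.sum_le_sum_of_subset_of_nonneg (h2 k) fun _ _ _ => Nat.cast_nonneg _
    _ ≤ ∑ k ∈ Finset.range (Φ.natDegree + 1), ∑ m ∈ (Φ.coeff k).support,
        (((Φ.coeff k).coeff m).natAbs : ℝ) :=
        Finset.sum_le_sum_of_subset_of_nonneg h3 fun _ _ _ => Finset.sum_nonneg fun _ _ => Nat.cast_nonneg _

theorem NRM_absNorm {E : Type} [Field E] [NumberField E] (p : ℕ) (κ : Type) [Field κ] [CharP κ p] (hp : p.Prime)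
    (f : 𝓞 E →+* κ) : p ≤ Ideal.absNorm (RingHom.ker f) := by
  have h1 : (p : 𝓞 E) ∈ RingHom.ker f := by
    rw [RingHom.mem_ker, map_natCast, CharP.cast_eq_zero]
  have h2 : Ideal.absNorm (RingHom.ker f) ∣ Ideal.absNorm (Ideal.span {(p : 𝓞 E)}) :=
    Ideal.absNorm_dvd_absNorm_of_le ((Ideal.span_singleton_le_iff_mem _).mpr h1)
  have h3 : Ideal.absNorm (RingHom.ker f) ≠ 1 := by
    rw [Ne, Ideal.absNorm_eq_one_iff]
    exact RingHom.ker_ne_top f
  have h4 : Ideal.absNorm (Ideal.span {(p : 𝓞 E)}) = p ^ Module.finrank ℤ (𝓞 E) := by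
    rw [Ideal.absNorm_span_singleton]
    have h5 : (p : 𝓞 E) = algebraMap ℤ (𝓞 E) p := by simp
    rw [h5, Algebra.norm_algebraMap, Int.natAbs_pow, Int.natAbs_natCast]
  rw [h4] at h2
  obtain ⟨k, -, hk⟩ := (Nat.dvd_prime_pow hp).1 h2
  rw [hk] at h3 ⊢
  have hk0 : k ≠ 0 := by
    rintro rfl
    exact h3 (pow_zero p)
  exact Nat.le_self_pow hk0 p

theorem NRM : NRM_stmt := by
  intro r n Φ
  obtain ⟨D, hD⟩ := exists_weight n Φ
  refine ⟨D, NRM_H Φ, hD, ?_⟩
  intro d E _ _ hd P Q B hB hP hQ p κ _ _ hp f hlt hf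
  refine relVal_eq_zero (NRM_weight n Φ hD) (NRM_height Φ) hB hP hQ (I := RingHom.ker f) (Or.inl ?_) hf
  refine lt_of_lt_of_le ?_ (NRM_absNorm p κ hp f)
  generalize NRM_H Φ * (((∑ i, n i) + 2) * B) ^ D = X at *
  rcases Nat.eq_zero_or_pos X with h0 | h0
  · rw [h0, zero_pow Module.finrank_pos.ne']
    exact hp.pos
  · exact lt_of_le_of_lt (Nat.pow_le_pow_right h0 hd) hlt

end Pool.Agent.UM
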